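import Mathlib.GroupTheory.Perm.Sign
import Mathlib.GroupTheory.Perm.Closure
import Mathlib.Data.Fintype.Perm
import Mathlib.Tactic

/-!
# Every finite connected graph is a confluent image of a vertex-transitive one (MP_be9f3f_co)

For a connected (reflexive) graph `H`, take the Cayley graph of the symmetric group on `V(H)` with
respect to the transpositions along the edges of `H`, and map a permutation to the image of a fixed
vertex.
-/

namespace Pool.Agent.Results.MP_be9f3f_co.EveryConnectedGraph

universe u

/-- A graph with vertex set `V` in the sense of the problem: a reflexive symmetric relation. -/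
structure RGraph (V : Type u) where
  /-- the edge relation -/
  E : V → V → Prop
  refl : ∀ a, E a a
  symm : ∀ a b, E a b → E b a

/-- A set `S` of vertices is connected if it cannot be split into two nonempty parts `P`, `Q`
(with `P ∪ Q = S`) with no edge between `P` and `Q`. -/
def ConnectedSet {V : Type u} (A : RGraph V) (S : Set V) : Prop :=
  ∀ P Q : Set V, P.Nonempty → Q.Nonempty → P ∪ Q = S → ∃ p ∈ P, ∃ q ∈ Q, A.E p q

/-- `C` is a component of `S`: a maximal connected subset of `S`. -/
def IsComponent {V : Type u} (A : RGraph V) (S C : Set V) : Prop :=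
  C ⊆ S ∧ ConnectedSet A C ∧ ∀ D : Set V, C ⊆ D → D ⊆ S → ConnectedSet A D → D = C

/-- A graph is connected if it has a vertex and its vertex set is connected. -/
def Connected {V : Type u} (A : RGraph V) : Prop := Nonempty V ∧ ConnectedSet A Set.univ

/-- Homomorphisms: maps preserving the edge relation. -/
def IsHom {V W : Type u} (A : RGraph V) (B : RGraph W) (f : V → W) : Prop :=
  ∀ a b, A.E a b → B.E (f a) (f b)

/-- Epimorphisms: homomorphisms that are surjective both on vertices and on edges. -/
def IsEpi {V W : Type u} (A : RGraph V) (B : RGraph W) (f : V → W) : Prop :=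
  IsHom A B f ∧ Function.Surjective f ∧ ∀ c d, B.E c d → ∃ a b, A.E a b ∧ f a = c ∧ f b = d

/-- Confluent epimorphisms: for every connected `Q` and every component `C` of `f ⁻¹(Q)` one has
`f(C) = Q`. -/
def IsConfluent {V W : Type u} (A : RGraph V) (B : RGraph W) (f : V → W) : Prop :=
  IsEpi A B f ∧ ∀ Q : Set W, ConnectedSet B Q → ∀ C : Set V, IsComponent A (f ⁻¹' Q) C →
    f '' C = Q

/-- A graph is homogeneous if its automorphism group is transitive on vertices. -/
def Homogeneous {V : Type u} (A : RGraph V) : Prop :=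
  ∀ x y : V, ∃ e : V ≃ V, (∀ a b, A.E a b ↔ A.E (e a) (e b)) ∧ e x = y

theorem connectedSet_singleton {V : Type u} (A : RGraph V) (x : V) : ConnectedSet A {x} := by
  intro P Q hP hQ h
  obtain ⟨p, hp⟩ := hP
  obtain ⟨q, hq⟩ := hQ
  have h1 : p = x := by
    have : p ∈ ({x} : Set V) := h ▸ Or.inl hp
    simpa using this
  have h2 : q = x := by
    have : q ∈ ({x} : Set V) := h ▸ Or.inr hq
    simpa using this
  exact ⟨p, hp, q, hq, by rw [h1, h2]; exact A.refl x⟩

theorem connectedSet_insert {V : Type u} (A : RGraph V) {C : Set V} (hC : ConnectedSet A C)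
    {g h : V} (hg : g ∈ C) (hgh : A.E g h) : ConnectedSet A (insert h C) := by
  intro P Q hP hQ hPQ
  by_cases hPC : (P ∩ C).Nonempty
  · by_cases hQC : (Q ∩ C).Nonempty
    · have hu : P ∩ C ∪ Q ∩ C = C := by
        ext x
        constructor
        · rintro (hx | hx) <;> exact hx.2
        · intro hx
          have : x ∈ P ∪ Q := hPQ ▸ Or.inr hx
          rcases this with h1 | h1
          · exact Or.inl ⟨h1, hx⟩
          · exact Or.inr ⟨h1, hx⟩
      obtain ⟨p, hp, q, hq, he⟩ := hC _ _ hPC hQC hu
      exact ⟨p, hp.1, q, hq.1, he⟩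
    · -- all of `C` is in `P`
      obtain ⟨q, hq⟩ := hQ
      have hqh : q = h := by
        have : q ∈ insert h C := hPQ ▸ Or.inr hq
        rcases this with h1 | h1
        · exact h1
        · exact absurd ⟨q, hq, h1⟩ hQC
      have hgP : g ∈ P := by
        have : g ∈ P ∪ Q := hPQ ▸ Or.inr hg
        rcases this with h1 | h1
        · exact h1
        · exact absurd ⟨g, h1, hg⟩ hQC
      exact ⟨g, hgP, q, hq, hqh ▸ hgh⟩
  · obtain ⟨p, hp⟩ := hP
    have hph : p = h := by
      have : p ∈ insert h C := hPQ ▸ Or.inl hp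
      rcases this with h1 | h1
      · exact h1
      · exact absurd ⟨p, hp, h1⟩ hPC
    have hgQ : g ∈ Q := by
      have : g ∈ P ∪ Q := hPQ ▸ Or.inr hg
      rcases this with h1 | h1
      · exact absurd ⟨g, h1, hg⟩ hPC
      · exact h1
    exact ⟨p, hp, g, hgQ, hph ▸ A.symm _ _ hgh⟩

section

variable {V : Type u} [DecidableEq V]

/-- The Cayley graph of the symmetric group on `V(H)` with respect to the transpositions along the
edges of `H`. -/
def cay (H : RGraph V) : RGraph (Equiv.Perm V) where
  E g h := g = h ∨ ∃ a b, H.E a b ∧ h = Equiv.swap a b * g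
  refl g := Or.inl rfl
  symm g h := by
    rintro (rfl | ⟨a, b, hab, rfl⟩)
    · exact Or.inl rfl
    · exact Or.inr ⟨a, b, hab, by simp [← mul_assoc]⟩

/-- The subgroup of permutations whose left multiplication preserves `P`. -/
def stab (P : Set (Equiv.Perm V)) : Subgroup (Equiv.Perm V) where
  carrier := {σ | ∀ g, σ * g ∈ P ↔ g ∈ P}
  one_mem' := by intro g; simp
  mul_mem' := by
    intro a b ha hb g
    rw [mul_assoc, ha, hb]
  inv_mem' := by
    intro a ha g
    have := ha (a⁻¹ * g)
    rw [mul_inv_cancel_left] at this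
    exact this.symm

theorem cay_connected [Finite V] (H : RGraph V) (hH : Connected H) : Connected (cay H) := by
  refine ⟨⟨1⟩, ?_⟩
  intro P Q hP hQ hPQ
  by_contra hcon
  push Not at hcon
  have hE : ∀ a b, H.E a b → Equiv.swap a b ∈ stab P := by
    intro a b hab g
    have key : ∀ g : Equiv.Perm V, g ∈ P → Equiv.swap a b * g ∈ P := by
      intro g hg
      have : Equiv.swap a b * g ∈ P ∪ Q := hPQ ▸ Set.mem_univ _
      rcases this with h1 | h1
      · exact h1
      · exact absurd (Or.inr ⟨a, b, hab, rfl⟩) (hcon g hg _ h1)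
    constructor
    · intro h
      have := key _ h
      simpa [← mul_assoc] using this
    · exact key g
  have hself : ∀ a, Equiv.swap a a ∈ stab P := by
    intro a
    rw [Equiv.swap_self]
    exact (stab P).one_mem
  have hall : ∀ a b, Equiv.swap a b ∈ stab P := by
    intro a
    by_contra hne
    push Not at hne
    obtain ⟨b, hb⟩ := hne
    obtain ⟨p, hp, q, hq, hpq⟩ := hH.2 {x | Equiv.swap a x ∈ stab P} {x | Equiv.swap a x ∉ stab P}
      ⟨a, hself a⟩ ⟨b, hb⟩ (by ext x; simp [em])
    apply hq
    have h1 : Equiv.swap a p ∈ stab P := hp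
    have h2 : Equiv.swap p q ∈ stab P := hE p q hpq
    by_cases hap : a = p
    · subst hap; exact h2
    · by_cases haq : a = q
      · subst haq; exact hself a
      · have : Equiv.swap a q = Equiv.swap a p * Equiv.swap p q * Equiv.swap a p := by
          by_cases hpq' : p = q
          · subst hpq'; exact absurd hp hq
          · rw [Equiv.swap_comm a p, Equiv.swap_comm p q, Equiv.swap_mul_swap_mul_swap (Ne.symm hpq') (Ne.symm haq)]
        rw [this]
        exact (stab P).mul_mem ((stab P).mul_mem h1 h2) h1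
  have htop : stab P = ⊤ := by
    rw [eq_top_iff, ← Equiv.Perm.closure_isSwap, Subgroup.closure_le]
    rintro σ ⟨a, b, -, rfl⟩
    exact hall a b
  obtain ⟨p, hp⟩ := hP
  obtain ⟨q, hq⟩ := hQ
  have hqP : q ∈ P := by
    have hmem : q * p⁻¹ ∈ stab P := htop ▸ Subgroup.mem_top _
    have := (hmem p).2 hp
    simpa using this
  exact hcon q hqP q hq (Or.inl rfl)

theorem cay_homogeneous (H : RGraph V) : Homogeneous (cay H) := by
  intro x y
  refine ⟨Equiv.mulRight (x⁻¹ * y), ?_, by simp⟩
  intro g h
  simp only [cay, Equiv.coe_mulRight]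
  constructor
  · rintro (rfl | ⟨a, b, hab, rfl⟩)
    · exact Or.inl rfl
    · exact Or.inr ⟨a, b, hab, by group⟩
  · rintro (h1 | ⟨a, b, hab, h1⟩)
    · exact Or.inl (mul_right_cancel h1)
    · refine Or.inr ⟨a, b, hab, ?_⟩
      rw [← mul_assoc (Equiv.swap a b)] at h1
      exact mul_right_cancel h1

theorem cay_epi (H : RGraph V) (v₀ : V) :
    IsEpi (cay H) H (fun g : Equiv.Perm V => g v₀) := by
  refine ⟨?_, ?_, ?_⟩
  · rintro g h (rfl | ⟨a, b, hab, rfl⟩)
    · exact H.refl _
    · simp only [Equiv.Perm.coe_mul, Function.comp_apply]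
      rw [Equiv.swap_apply_def]
      split_ifs with h1 h2
      · rw [h1]; exact hab
      · rw [h2]; exact H.symm _ _ hab
      · exact H.refl _
  · intro x
    exact ⟨Equiv.swap v₀ x, by simp⟩
  · intro c d hcd
    exact ⟨Equiv.swap v₀ c, Equiv.swap c d * Equiv.swap v₀ c, Or.inr ⟨c, d, hcd, rfl⟩, by simp,
      by simp⟩

theorem cay_confluent (H : RGraph V) (v₀ : V) :
    IsConfluent (cay H) H (fun g : Equiv.Perm V => g v₀) := by
  refine ⟨cay_epi H v₀, ?_⟩
  intro Q hQ C hC
  obtain ⟨hsub, hconn, hmax⟩ := hC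
  apply Set.Subset.antisymm
  · rintro _ ⟨g, hg, rfl⟩
    exact hsub hg
  · by_contra hne
    rw [Set.not_subset] at hne
    obtain ⟨q₀, hq₀, hq₀'⟩ := hne
    -- `C` is nonempty
    have hCne : C.Nonempty := by
      by_contra hemp
      rw [Set.not_nonempty_iff_eq_empty] at hemp
      subst hemp
      have := hmax {Equiv.swap v₀ q₀} (Set.empty_subset _)
        (by rintro _ rfl; simpa using hq₀) (connectedSet_singleton _ _)
      exact absurd this (Set.singleton_ne_empty _)
    obtain ⟨g₀, hg₀⟩ := hCne
    obtain ⟨p, hp, q, hq, hpq⟩ := hQ ((fun g : Equiv.Perm V => g v₀) '' C)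
      (Q \ ((fun g : Equiv.Perm V => g v₀) '' C)) ⟨g₀ v₀, g₀, hg₀, rfl⟩ ⟨q₀, hq₀, hq₀'⟩ (by
        rw [Set.union_sdiff_self, Set.union_eq_right]
        rintro _ ⟨g, hg, rfl⟩
        exact hsub hg)
    obtain ⟨g, hg, rfl⟩ := hp
    have hE : (cay H).E g (Equiv.swap (g v₀) q * g) := Or.inr ⟨g v₀, q, hpq, rfl⟩
    have h1 := hmax (insert (Equiv.swap (g v₀) q * g) C) (Set.subset_insert _ _) (by
        rintro x (rfl | hx)
        · simpa using hq.1
        · exact hsub hx) (connectedSet_insert _ hconn hg hE)
    have h2 : Equiv.swap (g v₀) q * g ∈ C := h1 ▸ Set.mem_insert _ _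
    exact hq.2 ⟨_, h2, by simp⟩

end

/-- Every finite connected graph is the image of a finite connected homogeneous (vertex-transitive)
graph under a confluent epimorphism. -/
theorem result (V : Type u) [Finite V] (H : RGraph V) (hH : Connected H) :
    ∃ (W : Type u) (_ : Finite W) (G : RGraph W) (f : W → V),
      Connected G ∧ Homogeneous G ∧ IsConfluent G H f := by
  classical
  obtain ⟨v₀⟩ := hH.1
  exact ⟨Equiv.Perm V, inferInstance, cay H, fun g => g v₀, cay_connected H hH,
    cay_homogeneous H, cay_confluent H v₀⟩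

end Pool.Agent.Results.MP_be9f3f_co.EveryConnectedGraph
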